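import Mathlib
import Pool.Agent.H.MP_573991_co.A

namespace Pool.Agent.Results.MP_573991_co.KG83

/-- The Kneser graph on k-subsets of an n-set. -/
def KG (n k : ℕ) : SimpleGraph {s : Finset (Fin n) // s.card = k} where
  Adj s t := s ≠ t ∧ Disjoint s.1 t.1
  symm := ⟨fun _ _ h => ⟨h.1.symm, h.2.symm⟩⟩
  loopless := ⟨fun _ h => h.1 rfl⟩

/-- D x y means that the edge xy is directed from x to y. -/
def IsOrientation {V : Type} (G : SimpleGraph V) (D : V → V → Prop) : Prop :=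
  (∀ x y, D x y → G.Adj x y) ∧ ∀ x y, G.Adj x y → (D x y ↔ ¬ D y x)

def ShortestOdd {V : Type} (G : SimpleGraph V) {v : V} (c : G.Walk v v) : Prop :=
  c.IsCycle ∧ Odd c.length ∧
    ∀ (u : V) (c' : G.Walk u u), c'.IsCycle → Odd c'.length → c.length ≤ c'.length

/-- Exactly one vertex has positive in-degree and positive out-degree in the cycle. -/
def Alternating {V : Type} {G : SimpleGraph V} (D : V → V → Prop) {v : V} (c : G.Walk v v) :
    Prop :=
  ∃! x, x ∈ c.support ∧ (∃ y, s(x, y) ∈ c.edges ∧ D y x) ∧ ∃ z, s(x, z) ∈ c.edges ∧ D x z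

theorem result : ¬ ∃ D, IsOrientation (KG 8 3) D ∧
    ∀ v (c : (KG 8 3).Walk v v), ShortestOdd (KG 8 3) c → Alternating D c := by
  rintro ⟨D, hD, hA⟩
  have ad : ∀ a b : {s : Finset (Fin 8) // s.card = 3}, Disjoint a.1 b.1 → (KG 8 3).Adj a b := by
    intro a b h
    refine ⟨?_, h⟩
    rintro rfl
    have := a.2
    rw [disjoint_self.1 h] at this
    simp at this
  have tri : ∀ a b c, (KG 8 3).Adj a b → (KG 8 3).Adj b c → ¬ (KG 8 3).Adj a c := by
    intro a b c h1 h2 h3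
    have h := Finset.card_le_univ (a.1 ∪ b.1 ∪ c.1)
    rw [Finset.card_union_of_disjoint (Finset.disjoint_union_left.2 ⟨h3.2, h2.2⟩),
      Finset.card_union_of_disjoint h1.2, a.2, b.2, c.2] at h
    simp at h
  have five : ∀ u (c : (KG 8 3).Walk u u), c.IsCycle → Odd c.length → 5 ≤ c.length := by
    intro u c hc ho
    have h3 := hc.three_le_length
    have : c.length ≠ 3 := by
      intro h
      rcases c with _ | ⟨e1, _ | ⟨e2, _ | ⟨e3, _ | ⟨e4, p⟩⟩⟩⟩ <;> simp at h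
      exact tri _ _ _ e1 e2 e3.symm
    obtain ⟨r, hr⟩ := ho
    omega
  refine Pool.Agent.H.MP_573991_co.main
    (fun a b => ∃ (ha : a.card = 3) (hb : b.card = 3), D ⟨a, ha⟩ ⟨b, hb⟩) ?_ ?_
  · intro a b ha hb h
    by_cases h' : D ⟨b, hb⟩ ⟨a, ha⟩
    · exact Or.inr ⟨hb, ha, h'⟩
    · exact Or.inl ⟨ha, hb, (hD.2 _ _ (ad ⟨a, ha⟩ ⟨b, hb⟩ h)).2 h'⟩
  · rintro a b c d ha hb hc hd h1 h2 h3 h4 ⟨⟨_, _, d1⟩, ⟨_, _, d2⟩, _, _, d3⟩
    have hu : 3 ≤ (a ∪ d)ᶜ.card := by
      have := Finset.card_union_add_card_inter a d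
      have := Finset.card_pos.2 (Finset.not_disjoint_iff_nonempty_inter.1 h4)
      rw [Finset.card_compl]
      simp only [Fintype.card_fin]
      omega
    obtain ⟨e, he1, he⟩ := Finset.exists_subset_card_eq hu
    have he2 : Disjoint (a ∪ d) e := (Finset.subset_compl_iff_disjoint_left.1 he1)
    rw [Finset.disjoint_union_left] at he2
    set A : {s : Finset (Fin 8) // s.card = 3} := ⟨a, ha⟩
    set B : {s : Finset (Fin 8) // s.card = 3} := ⟨b, hb⟩
    set C : {s : Finset (Fin 8) // s.card = 3} := ⟨c, hc⟩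
    set D' : {s : Finset (Fin 8) // s.card = 3} := ⟨d, hd⟩
    set E : {s : Finset (Fin 8) // s.card = 3} := ⟨e, he⟩
    have e1 := ad A B h1
    have e2 := ad B C h2
    have e3 := ad C D' h3
    have e4 := ad D' E he2.2
    have e5 := ad E A he2.1.symm
    have n1 : A ≠ C := fun h => tri _ _ _ e3 e4 (h ▸ e5.symm)
    have n2 : A ≠ D' := fun h => tri _ _ _ e1 e2 (h ▸ e3.symm)
    have n3 : B ≠ D' := fun h => tri _ _ _ e4 e5 (h ▸ e1.symm)
    have n4 : B ≠ E := fun h => tri _ _ _ e2 e3 (h ▸ e4.symm)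
    have n5 : C ≠ E := fun h => tri _ _ _ e5 e1 (h ▸ e2.symm)
    let w : (KG 8 3).Walk A A := .cons e1 (.cons e2 (.cons e3 (.cons e4 (.cons e5 .nil))))
    have hw : w.IsCycle := by
      simp [w, SimpleGraph.Walk.isCycle_def, SimpleGraph.Walk.isTrail_def, e1.ne, e2.ne, e3.ne,
        e4.ne, e5.ne, e1.ne', e5.ne', n1, n2, n3, n4, n5, n1.symm, n2.symm]
    obtain ⟨x, -, hx⟩ := hA A w ⟨hw, by simp [w]; decide, five⟩
    have x1 := hx B ⟨by simp [w], ⟨A, by simp [w], d1⟩, C, by simp [w], d2⟩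
    have x2 := hx C ⟨by simp [w], ⟨B, by simp [w], d2⟩, D', by simp [w], d3⟩
    exact e2.ne (x1.trans x2.symm)

end Pool.Agent.Results.MP_573991_co.KG83
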